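import Pool.Agent.LE.StmtsM

/-!
# CHN: the chain at a complex energy
-/

set_option autoImplicit false

open MeasureTheory ProbabilityTheory Function Filter

open scoped ENNReal BigOperators Topology NNReal

noncomputable section

namespace Pool.Agent.LE.MN.H80

open Pool.Agent.Anderson hiding box mem_box card_box
open Pool.Agent.Loc Pool.Agent.Mob Pool.Agent.Helper54.Bal
  Pool.Agent.Helper96.EXP Pool.Agent.BED

theorem gz_meas {d : ℕ} (Λ : Finset (Site d)) (z : ℂ) (x y : Site d) :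
    Measurable fun V : Site d → ℝ => gz V Λ z x y := by
  by_cases h : x ∈ Λ ∧ y ∈ Λ
  · have h1 := Pool.Agent.LY.measurable_KB Λ z ⟨x, h.1⟩ ⟨y, h.2⟩
    have h2 : (fun V : Site d → ℝ => gz V Λ z x y) =
        fun V => -Pool.Agent.LY.KB Λ z V ⟨x, h.1⟩ ⟨y, h.2⟩ := by
      funext V
      rw [Pool.Agent.LY.KB_eq_gz, neg_neg]
    rw [h2]
    exact h1.neg
  · have h2 : (fun V : Site d → ℝ => gz V Λ z x y) = fun _ => 0 := by
      funext V
      unfold gz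
      rw [dif_neg h]
    rw [h2]
    exact measurable_const

theorem gz_symm {d : ℕ} (V : Site d → ℝ) (Λ : Finset (Site d)) (z : ℂ) (x y : Site d) :
    gz V Λ z x y = gz V Λ z y x := by
  by_cases h : x ∈ Λ ∧ y ∈ Λ
  · have h1 := Pool.Agent.LY.KB_symm Λ z V ⟨x, h.1⟩ ⟨y, h.2⟩
    rw [Pool.Agent.LY.KB_eq_gz, Pool.Agent.LY.KB_eq_gz] at h1
    exact neg_injective h1
  · unfold gz
    rw [dif_neg h, dif_neg (fun h' => h h'.symm)]

theorem meas_sup {Ω ι β : Type*} [MeasurableSpace Ω] [MeasurableSpace β] [SemilatticeSup β]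
    [OrderBot β] [MeasurableSup₂ β] (S : Finset ι) {f : ι → Ω → β}
    (hf : ∀ i ∈ S, Measurable (f i)) : Measurable fun x => S.sup fun i => f i x := by
  classical
  induction S using Finset.induction_on with
  | empty => simp only [Finset.sup_empty]; exact measurable_const
  | insert a s ha ih =>
    simp only [Finset.sup_insert]
    exact (hf a (Finset.mem_insert_self a s)).sup
      (ih fun i hi => hf i (Finset.mem_insert_of_mem hi))

theorem gmz_meas {d : ℕ} (Λ : Finset (Site d)) (z : ℂ) (S : Finset (Site d)) (y : Site d) :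
    Measurable fun V : Site d → ℝ => gmz V Λ z S y := by
  unfold gmz
  exact (meas_sup S fun u _ => (gz_meas Λ z u y).nnnorm).coe_nnreal_real

theorem le_gmz {d : ℕ} (V : Site d → ℝ) (Λ : Finset (Site d)) (z : ℂ) {S : Finset (Site d)}
    {u : Site d} (hu : u ∈ S) (y : Site d) : ‖gz V Λ z u y‖ ≤ gmz V Λ z S y := by
  have h : ‖gz V Λ z u y‖₊ ≤ S.sup fun u => ‖gz V Λ z u y‖₊ :=
    Finset.le_sup (f := fun u => ‖gz V Λ z u y‖₊) hu
  exact_mod_cast h

/-- exponential tails give a bound of the mean -/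
theorem tail_mean {Ω : Type*} [MeasurableSpace Ω] (P : Measure Ω) [IsProbabilityMeasure P]
    {f : Ω → ℝ≥0} (hm : Measurable f) {B : ℝ} (hB : 0 ≤ B)
    (h : ∀ t : ℝ, 0 < t → P {ω | t < (f ω : ℝ)} ≤ ENNReal.ofReal (B * Real.exp (-t))) :
    ∫⁻ ω, (f ω : ℝ≥0∞) ∂P ≤ ENNReal.ofReal (1 + Real.log (1 + B)) := by
  have e1 : ∫⁻ ω, (f ω : ℝ≥0∞) ∂P = ∫⁻ ω, ENNReal.ofReal (f ω : ℝ) ∂P := by
    refine lintegral_congr fun ω => ?_
    rw [ENNReal.ofReal_coe_nnreal]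
  have ha : 0 ≤ Real.log (1 + B) := Real.log_nonneg (by linarith)
  have hnn : 0 ≤ᵐ[P] fun ω => (f ω : ℝ) := Filter.Eventually.of_forall fun ω => (f ω).2
  rw [e1, lintegral_eq_lintegral_meas_lt P hnn hm.coe_nnreal_real.aemeasurable]
  have hint : Integrable (fun t : ℝ => B * Real.exp (-t))
      (volume.restrict (Set.Ioi (Real.log (1 + B)))) :=
    (integrableOn_exp_neg_Ioi (Real.log (1 + B))).const_mul B
  have hval : ∫ t in Set.Ioi (Real.log (1 + B)), B * Real.exp (-t) ≤ 1 := by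
    rw [integral_const_mul, integral_exp_neg_Ioi, Real.exp_neg, Real.exp_log (by linarith),
      ← div_eq_mul_inv, div_le_one (by linarith)]
    linarith
  calc ∫⁻ t in Set.Ioi (0 : ℝ), P {ω | t < (f ω : ℝ)}
      = (∫⁻ t in Set.Ioc (0 : ℝ) (Real.log (1 + B)), P {ω | t < (f ω : ℝ)}) +
        ∫⁻ t in Set.Ioi (Real.log (1 + B)), P {ω | t < (f ω : ℝ)} := by
        rw [← Set.Ioc_union_Ioi_eq_Ioi ha, lintegral_union measurableSet_Ioi]
        rw [Set.disjoint_left]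
        intro x hx hx'
        exact absurd (lt_of_lt_of_le (Set.mem_Ioi.1 hx') hx.2) (lt_irrefl _)
    _ ≤ (∫⁻ _t in Set.Ioc (0 : ℝ) (Real.log (1 + B)), (1 : ℝ≥0∞)) +
        ∫⁻ t in Set.Ioi (Real.log (1 + B)), ENNReal.ofReal (B * Real.exp (-t)) := by
        refine add_le_add (lintegral_mono fun _ => prob_le_one) ?_
        refine setLIntegral_mono' measurableSet_Ioi fun t ht => ?_
        exact h t (lt_of_le_of_lt ha ht)
    _ = ENNReal.ofReal (Real.log (1 + B)) +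
        ENNReal.ofReal (∫ t in Set.Ioi (Real.log (1 + B)), B * Real.exp (-t)) := by
        rw [ofReal_integral_eq_lintegral_ofReal hint
          (Filter.Eventually.of_forall fun t => mul_nonneg hB (Real.exp_pos _).le)]
        congr 1
        rw [setLIntegral_one, Real.volume_Ioc, sub_zero]
    _ ≤ ENNReal.ofReal (Real.log (1 + B)) + ENNReal.ofReal 1 := by
        exact add_le_add le_rfl (ENNReal.ofReal_le_ofReal hval)
    _ = ENNReal.ofReal (1 + Real.log (1 + B)) := by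
        rw [← ENNReal.ofReal_add ha zero_le_one, add_comm]

/-- the error of one site -/
def ta {d : ℕ} (Λ : Finset (Site d)) (z : ℂ) (S : Finset (Site d)) (V : Site d → ℝ)
    (x y : Site d) : ℝ :=
  Real.log (gmz V Λ z S y * ‖gz V Λ z y x‖ / gmz V Λ z S x)

/-- the maximal error of one step -/
def TN {d : ℕ} (Λ : Finset (Site d)) (z : ℂ) (S S₁ S₂ : Finset (Site d)) (V : Site d → ℝ) :
    ℝ≥0 :=
  (S₁ ×ˢ S₂).sup fun p => Real.toNNReal (ta Λ z S V p.1 p.2)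

/-- the maximum of the cost to `S` over a set -/
def FF {d : ℕ} (Λ : Finset (Site d)) (z : ℂ) (S S₁ : Finset (Site d)) (V : Site d → ℝ) :
    ℝ≥0∞ :=
  S₁.sup fun x => ENNReal.ofReal (FZ V Λ z S x)

theorem TN_meas {d : ℕ} (Λ : Finset (Site d)) (z : ℂ) (S S₁ S₂ : Finset (Site d)) :
    Measurable (TN Λ z S S₁ S₂) := by
  unfold TN
  refine meas_sup _ fun p _ => ?_
  unfold ta
  refine Measurable.real_toNNReal (Measurable.log ?_)
  exact ((gmz_meas Λ z S p.2).mul (gz_meas Λ z p.2 p.1).norm).div (gmz_meas Λ z S p.1)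

theorem FF_meas {d : ℕ} (Λ : Finset (Site d)) (z : ℂ) (S S₁ : Finset (Site d)) :
    Measurable (FF Λ z S S₁) := by
  unfold FF
  refine meas_sup _ fun x _ => ?_
  unfold FZ
  exact ((gmz_meas Λ z S x).log.neg).ennreal_ofReal

/-- one step of the chain -/
theorem step {d : ℕ} (Λ : Finset (Site d)) (z : ℂ) (S S₁ S₂ : Finset (Site d))
    (hS : S.Nonempty) (hSΛ : S ⊆ Λ) (h1Λ : S₁ ⊆ Λ) (h2Λ : S₂ ⊆ Λ) (h2 : S₂.Nonempty)
    (V : Site d → ℝ) (hV : ∀ u x, u ∈ Λ → x ∈ Λ → gz V Λ z u x ≠ 0) :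
    FF Λ z S S₁ V ≤ FF Λ z S S₂ V + LC V Λ z S₁ S₂ + (TN Λ z S S₁ S₂ V : ℝ≥0∞) := by
  obtain ⟨u, hu⟩ := hS
  have hpos : ∀ x ∈ Λ, 0 < gmz V Λ z S x := fun x hx =>
    lt_of_lt_of_le (norm_pos_iff.2 (hV u x (hSΛ hu) hx)) (le_gmz V Λ z hu x)
  unfold FF
  refine Finset.sup_le fun x hx => ?_
  obtain ⟨y, hy, hxy⟩ := Finset.exists_mem_eq_inf S₂ h2
    (fun y => ENNReal.ofReal (DZ Λ z V x y))
  have p1 := hpos x (h1Λ hx)
  have p2 := hpos y (h2Λ hy)
  have p3 : 0 < ‖gz V Λ z y x‖ := norm_pos_iff.2 (hV y x (h2Λ hy) (h1Λ hx))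
  have e1 : FZ V Λ z S x = FZ V Λ z S y + DZ Λ z V x y + ta Λ z S V x y := by
    unfold FZ DZ ta
    rw [gz_symm V Λ z x y, Real.log_div (mul_pos p2 p3).ne' p1.ne', Real.log_mul p2.ne' p3.ne']
    ring
  rw [e1]
  refine (ENNReal.ofReal_add_le).trans (add_le_add ((ENNReal.ofReal_add_le).trans
    (add_le_add ?_ ?_)) ?_)
  · exact Finset.le_sup (f := fun x => ENNReal.ofReal (FZ V Λ z S x)) hy
  · rw [← hxy]
    unfold LC
    exact Finset.le_sup (f := fun x => S₂.inf fun y => ENNReal.ofReal (DZ Λ z V x y)) hx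
  · have hm : (x, y) ∈ S₁ ×ˢ S₂ := Finset.mem_product.2 ⟨hx, hy⟩
    have h3 := Finset.le_sup (f := fun p : Site d × Site d => Real.toNNReal (ta Λ z S V p.1 p.2))
      hm
    have h4 : ENNReal.ofReal (ta Λ z S V x y) = ((Real.toNNReal (ta Λ z S V x y) : ℝ≥0) : ℝ≥0∞) :=
      rfl
    rw [h4]
    unfold TN
    exact ENNReal.coe_le_coe.2 h3

theorem ae_ne {d : ℕ} (hN : NzzStmt) (N : ℕ) (σ : ℝ) (z : ℂ) (hd : 1 ≤ d) (hσ : σ ≠ 0)
    (hz : 0 < z.im) : ∀ᵐ V ∂(PP d (gl σ)), ∀ u x, u ∈ box (0 : Site d) N →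
      x ∈ box (0 : Site d) N → gz V (box 0 N) z u x ≠ 0 := by
  rw [ae_all_iff]
  intro u
  rw [ae_all_iff]
  intro x
  by_cases hu : u ∈ box (0 : Site d) N
  · by_cases hx : x ∈ box (0 : Site d) N
    · have h1 := hN d N σ z u x hd hσ hz hu hx
      have h2 : ∀ᵐ V ∂(PP d (gl σ)), gz V (box 0 N) z u x ≠ 0 := by
        rw [ae_iff]
        simpa using h1
      filter_upwards [h2] with V hV _ _
      exact hV
    · exact Filter.Eventually.of_forall fun V _ h => absurd h hx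
  · exact Filter.Eventually.of_forall fun V h => absurd h hu

theorem TN_mean {d : ℕ} (hT : VtzStmt) (σ : ℝ) (z : ℂ) (hσ : σ ≠ 0)
    (hz : 0 < z.im) (Λ S S₁ S₂ : Finset (Site d)) (hS : S.Nonempty) (hSΛ : S ⊆ Λ)
    (h1Λ : S₁ ⊆ Λ) (h2Λ : S₂ ⊆ Λ)
    (hae : ∀ᵐ V ∂(PP d (gl σ)), ∀ u x, u ∈ Λ → x ∈ Λ → gz V Λ z u x ≠ 0) :
    ∫⁻ V, (TN Λ z S S₁ S₂ V : ℝ≥0∞) ∂(PP d (gl σ)) ≤
      ENNReal.ofReal (1 + Real.log (1 + 8 * ((S₁.card : ℝ) * S₂.card) / |σ|)) := by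
  have hs : 0 < |σ| := abs_pos.2 hσ
  refine tail_mean _ (TN_meas Λ z S S₁ S₂) (by positivity) fun t ht => ?_
  have hsub : ∀ᵐ V ∂(PP d (gl σ)), V ∈ {V | t < ((TN Λ z S S₁ S₂ V : ℝ≥0) : ℝ)} →
      V ∈ ⋃ p ∈ S₁ ×ˢ S₂, {V | Real.exp t * gmz V Λ z S p.1 <
        gmz V Λ z S p.2 * ‖gz V Λ z p.2 p.1‖} := by
    filter_upwards [hae] with V hV hVt
    have hVt' : t < ((TN Λ z S S₁ S₂ V : ℝ≥0) : ℝ) := hVt
    have h1 : Real.toNNReal t < TN Λ z S S₁ S₂ V := by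
      rw [← NNReal.coe_lt_coe, Real.coe_toNNReal t ht.le]
      exact hVt'
    unfold TN at h1
    rw [Finset.lt_sup_iff] at h1
    obtain ⟨p, hp, hp2⟩ := h1
    have h2 : t < ta Λ z S V p.1 p.2 := (Real.toNNReal_lt_toNNReal_iff_of_nonneg ht.le).1 hp2
    rw [Finset.mem_product] at hp
    obtain ⟨u, hu⟩ := hS
    have hpos : ∀ x ∈ Λ, 0 < gmz V Λ z S x := fun x hx =>
      lt_of_lt_of_le (norm_pos_iff.2 (hV u x (hSΛ hu) hx)) (le_gmz V Λ z hu x)
    have p1 := hpos p.1 (h1Λ hp.1)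
    have p2 := hpos p.2 (h2Λ hp.2)
    have p3 : 0 < ‖gz V Λ z p.2 p.1‖ := norm_pos_iff.2 (hV p.2 p.1 (h2Λ hp.2) (h1Λ hp.1))
    refine Set.mem_biUnion (x := p) (Finset.mem_coe.2 (Finset.mem_product.2 hp)) ?_
    show Real.exp t * gmz V Λ z S p.1 < gmz V Λ z S p.2 * ‖gz V Λ z p.2 p.1‖
    unfold ta at h2
    rw [Real.lt_log_iff_exp_lt (div_pos (mul_pos p2 p3) p1), lt_div_iff₀ p1] at h2
    exact h2
  refine (measure_mono_ae hsub).trans ?_
  refine (measure_biUnion_finset_le _ _).trans ?_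
  have h3 : ∀ p ∈ S₁ ×ˢ S₂, PP d (gl σ) {V | Real.exp t * gmz V Λ z S p.1 <
        gmz V Λ z S p.2 * ‖gz V Λ z p.2 p.1‖} ≤ ENNReal.ofReal (8 / |σ| / Real.exp t) :=
    fun p _ => hT d σ (Real.exp t) z Λ S p.2 p.1 hσ (Real.exp_pos t) hz
  refine (Finset.sum_le_sum h3).trans ?_
  rw [Finset.sum_const, nsmul_eq_mul, ← ENNReal.ofReal_natCast, ← ENNReal.ofReal_mul (by positivity)]
  refine ENNReal.ofReal_le_ofReal (le_of_eq ?_)
  rw [Finset.card_product, Real.exp_neg]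
  push_cast
  field_simp

/-- CHN -/
theorem chn (hT : VtzStmt) (hN : NzzStmt) : ChnStmt := by
  intro d K L R N i σ z A₁ A₂ hσ hσ1 hz hA1 hA2 hbox hlink hlast
  have hd : 1 ≤ d := Nat.one_le_iff_ne_zero.2 fun h => by subst h; exact i.elim0
  have hs : 0 < |σ| := abs_pos.2 hσ
  have hae := ae_ne hN N σ z hd hσ hz
  set Λ := box (0 : Site d) N with hΛ
  let Sk : ℕ → Finset (Site d) := fun k => box (pt i (k * L)) R
  have hne : ∀ k, (Sk k).Nonempty := fun k => ⟨pt i (k * L), mem_box.2 (by rw [sd_self]; exact Nat.zero_le _)⟩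
  have hsub : ∀ k ≤ K, Sk k ⊆ Λ := hbox
  have hcard : ∀ k, ((Sk k).card : ℝ) = (2 * R + 1 : ℝ) ^ d := by
    intro k
    rw [card_box]
    push_cast
    ring
  set c : ℝ := A₁ + 1 + Real.log (1 + 8 * (2 * R + 1 : ℝ) ^ (2 * d) / |σ|) with hc
  have hlog : 0 ≤ Real.log (1 + 8 * (2 * R + 1 : ℝ) ^ (2 * d) / |σ|) := by
    refine Real.log_nonneg ?_
    have : 0 ≤ 8 * (2 * R + 1 : ℝ) ^ (2 * d) / |σ| := by positivity
    linarith
  have hc0 : 0 ≤ c := by rw [hc]; linarith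
  have hstep : ∀ k < K, ∫⁻ V, FF Λ z (Sk K) (Sk k) V ∂(PP d (gl σ)) ≤
      ∫⁻ V, FF Λ z (Sk K) (Sk (k + 1)) V ∂(PP d (gl σ)) + ENNReal.ofReal c := by
    intro k hk
    have h1 : ∫⁻ V, FF Λ z (Sk K) (Sk k) V ∂(PP d (gl σ)) ≤
        ∫⁻ V, (FF Λ z (Sk K) (Sk (k + 1)) V + LC V Λ z (Sk k) (Sk (k + 1)) +
          (TN Λ z (Sk K) (Sk k) (Sk (k + 1)) V : ℝ≥0∞)) ∂(PP d (gl σ)) := by
      refine lintegral_mono_ae ?_
      filter_upwards [hae] with V hV
      exact step Λ z (Sk K) (Sk k) (Sk (k + 1)) (hne K) (hsub K le_rfl) (hsub k hk.le)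
        (hsub (k + 1) hk) (hne (k + 1)) V hV
    refine h1.trans ?_
    rw [lintegral_add_right _ (TN_meas Λ z (Sk K) (Sk k) (Sk (k + 1))).coe_nnreal_ennreal,
      lintegral_add_left (FF_meas Λ z (Sk K) (Sk (k + 1))), add_assoc]
    refine add_le_add le_rfl ?_
    have h2 := hlink k hk
    have h3 := TN_mean hT σ z hσ hz Λ (Sk K) (Sk k) (Sk (k + 1)) (hne K) (hsub K le_rfl)
      (hsub k hk.le) (hsub (k + 1) hk) hae
    refine (add_le_add h2 h3).trans ?_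
    rw [hcard, hcard, ← ENNReal.ofReal_add hA1 (by
      have e : (2 * R + 1 : ℝ) ^ d * (2 * R + 1 : ℝ) ^ d = (2 * R + 1 : ℝ) ^ (2 * d) := by
        rw [two_mul d, pow_add]
      rw [e]
      linarith)]
    refine ENNReal.ofReal_le_ofReal (le_of_eq ?_)
    have e : (2 * R + 1 : ℝ) ^ d * (2 * R + 1 : ℝ) ^ d = (2 * R + 1 : ℝ) ^ (2 * d) := by
      rw [two_mul d, pow_add]
    rw [e, hc]
    ring
  have hind : ∀ j ≤ K, ∫⁻ V, FF Λ z (Sk K) (Sk 0) V ∂(PP d (gl σ)) ≤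
      ∫⁻ V, FF Λ z (Sk K) (Sk j) V ∂(PP d (gl σ)) + ENNReal.ofReal (j * c) := by
    intro j
    induction j with
    | zero =>
      intro _
      simp
    | succ j ih =>
      intro hj
      refine (ih (by omega)).trans ?_
      refine (add_le_add (hstep j (by omega)) le_rfl).trans ?_
      rw [add_assoc, ← ENNReal.ofReal_add hc0 (by positivity)]
      refine add_le_add le_rfl (ENNReal.ofReal_le_ofReal (le_of_eq ?_))
      push_cast
      ring
  have hK : ∫⁻ V, FF Λ z (Sk K) (Sk K) V ∂(PP d (gl σ)) ≤ ENNReal.ofReal A₂ := by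
    refine (lintegral_mono_ae ?_).trans hlast
    filter_upwards [hae] with V hV
    unfold FF
    refine Finset.sup_mono_fun fun x hx => ?_
    have hxΛ : x ∈ Λ := hsub K le_rfl hx
    refine ENNReal.ofReal_le_ofReal ?_
    unfold FZ DZ
    have p1 : 0 < ‖gz V Λ z x x‖ := norm_pos_iff.2 (hV x x hxΛ hxΛ)
    have := Real.log_le_log p1 (le_gmz V Λ z hx x)
    linarith
  have h0 : (0 : Site d) ∈ Sk 0 := by
    show (0 : Site d) ∈ box (pt i (0 * L)) R
    have e : pt i (0 * L) = (0 : Site d) := by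
      unfold pt
      rw [zero_mul, Nat.cast_zero, Pi.single_zero]
    rw [e]
    exact mem_box.2 (by rw [sd_self]; exact Nat.zero_le _)
  have hfin : ∫⁻ V, ENNReal.ofReal (FZ V Λ z (Sk K) 0) ∂(PP d (gl σ)) ≤
      ∫⁻ V, FF Λ z (Sk K) (Sk 0) V ∂(PP d (gl σ)) := by
    refine lintegral_mono fun V => ?_
    unfold FF
    exact Finset.le_sup (f := fun x => ENNReal.ofReal (FZ V Λ z (Sk K) x)) h0
  refine hfin.trans ((hind K le_rfl).trans ((add_le_add hK le_rfl).trans ?_))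
  rw [← ENNReal.ofReal_add hA2 (by positivity)]
  refine ENNReal.ofReal_le_ofReal (le_of_eq ?_)
  rw [hc]
  ring

end Pool.Agent.LE.MN.H80
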